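import Mathlib
import Pool.Agent.H47.NAssoc

namespace Pool.Agent.Results.MP_0b5955_al.RadicalNotCE

/-- the subring `T` of `R` (given as a set) is centrally essential as a ring in its own right -/
def CE {R : Type} [Ring R] (T : Set R) : Prop :=
  (∀ a ∈ T, ∀ b ∈ T, a * b = b * a) ∨
  ∀ a ∈ T, (¬ ∀ t ∈ T, a * t = t * a) → ∃ x ∈ T, ∃ y ∈ T, (∀ t ∈ T, x * t = t * x) ∧
    (∀ t ∈ T, y * t = t * y) ∧ x ≠ 0 ∧ y ≠ 0 ∧ a * x = y

open Pool.Agent.H47.NAssoc in
theorem result : ∃ (R : Type) (_ : Ring R),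
    CE (Set.univ : Set R) ∧ ¬ CE (Ring.jacobson R : Set R) := by
  refine ⟨C, inferInstance, Or.inr fun a _ ha => ⟨⟨2, 0, 0, 0⟩, trivial, a * ⟨2, 0, 0, 0⟩, trivial,
    fun t _ => C.cen _ (by simp) (by simp) t, fun t _ => C.cen _ ?_ ?_ t, by simp [C.zero_def],
    fun h => ha fun t _ => C.cen _ ?_ ?_ t, rfl⟩, ?_⟩
  · simp only [C.mul_def]; generalize a.i = u; simp; revert u; decide
  · simp only [C.mul_def]; generalize a.j = u; simp; revert u; decide
  · have := congrArg C.i h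
    simp only [C.mul_def, C.zero_def] at this
    generalize a.i = u at *; simp at this; revert u; decide
  · have := congrArg C.j h
    simp only [C.mul_def, C.zero_def] at this
    generalize a.j = u at *; simp at this; revert u; decide
  · have ha : (⟨0, 1, 0, 0⟩ : C) ∈ (Ring.jacobson C : Set C) := (C.jac _).mpr rfl
    have hb : (⟨0, 0, 1, 0⟩ : C) ∈ (Ring.jacobson C : Set C) := (C.jac _).mpr rfl
    have hne : (⟨0, 1, 0, 0⟩ : C) * ⟨0, 0, 1, 0⟩ ≠ ⟨0, 0, 1, 0⟩ * ⟨0, 1, 0, 0⟩ := by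
      simp [C.mul_def]
    rintro (h | h)
    · exact hne (h _ ha _ hb)
    · obtain ⟨x, hx, y, -, h1, -, -, h2, rfl⟩ := h _ ha (fun h' => hne (h' _ hb))
      have h3 : x.n = 0 := (C.jac _).mp hx
      apply h2
      rw [← h1 _ ha]
      simp [C.mul_def, C.zero_def, h3]

end Pool.Agent.Results.MP_0b5955_al.RadicalNotCE
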